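import Pool.Agent.R986.ARHeavy

/-!
# The direct sum of countably many infinite cyclic groups is not algebraically recurrent

The steps are `±e_k`, where the index `k` has the tail `P(k ≥ m) = 1 / (m + 1)`. Almost surely,
from some time on, the largest index used so far has been used exactly once, so that the top
coordinate of the walk keeps a constant sign during the whole reign of an index. A product of
positions of the walk therefore has a non-zero top coordinate, and the identity is missing from the
semigroups generated by the late positions.
-/

set_option autoImplicit false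

open MeasureTheory

namespace Pool.Agent.Results.MP_eb99da_pr.DirectSumNotAR

open Pool.Agent.R986.AlgRec

/-- The group `⨁_ℤ ℤ` (written multiplicatively) is not algebraically recurrent: there is a
symmetric probability measure `μ` on it whose support generates it, such that for some `n ≥ 1` the
semigroup `S_n` generated by the walk from time `n` on is not the whole group with positive
probability. In fact almost surely the identity is missing from `S_n` for some `n`. -/
theorem result : ∃ μ : PMF (Multiplicative (ℤ →₀ ℤ)), Admissible μ ∧
    (∃ n : ℕ, 1 ≤ n ∧ 0 < (@steps (Multiplicative (ℤ →₀ ℤ)) ⊤ μ) {ω | tail ω n ≠ ⊤}) ∧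
    (∀ᵐ ω ∂(@steps (Multiplicative (ℤ →₀ ℤ)) ⊤ μ), ∃ n : ℕ, 1 ≤ n ∧
      (1 : Multiplicative (ℤ →₀ ℤ)) ∉ tail ω n) := by
  let _ : MeasurableSpace (Multiplicative (ℤ →₀ ℤ)) := ⊤
  exact ⟨nuS, nuS_admissible, not_ar_of_one_notMem _ nuS_ae, nuS_ae⟩

end Pool.Agent.Results.MP_eb99da_pr.DirectSumNotAR
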